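import Pool.Agent.Work.MP_ccd212_pr.Main

/-! No point of degree four or more in a scaling limit of the planar minimal spanning tree. -/

namespace Pool.Agent.Results.MP_ccd212_pr.NoDegreeFour

open MeasureTheory Filter Topology Pool.Agent.Work.MP_ccd212_pr

theorem result (adm : (n : ℕ) → SimpleGraph (Fin n) → Prop) (η : ℕ → ℝ) (hη : ∀ n, 0 < η n)
    (h0 : Tendsto η atTop (𝓝 0)) (μ : @Measure Forest (borel Forest))
    (_ : @IsProbabilityMeasure Forest (borel Forest) μ)
    (hμ : ∀ U : Set Forest, IsOpen U →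
      μ U ≤ liminf (fun n => labelLaw {V | mstF adm (η n) V ∈ U}) atTop) :
    ∀ᵐ F ∂μ, ∀ x : ℂ, degF F (stereo x) ≤ 3 :=
  main adm η hη h0 μ hμ

end Pool.Agent.Results.MP_ccd212_pr.NoDegreeFour
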